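import Mathlib

/-!
From windows to gaps: if for every `l > 0` a positive proportion of the `n` has exactly one prime in `(n, n + l log n]`, then for every
`l > 0` a positive proportion of the `k` has `p_{k+1} - p_k ≥ l log p_k`.
-/

open Finset Filter

namespace Pool.Agent.LibGap5

/-- the set counted: `k < N` with `p_{k+1} - p_k ≥ l log p_k` -/
noncomputable def gapSet (l : ℝ) (N : ℕ) : Finset ℕ :=
  (range N).filter fun k => l * Real.log (Nat.nth Nat.Prime k) ≤
    (Nat.nth Nat.Prime (k + 1) : ℝ) - Nat.nth Nat.Prime k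

private theorem pi_eq (n : ℕ) : Nat.primeCounting n = Nat.count Nat.Prime (n + 1) := rfl

private theorem nth_le_iff (n j : ℕ) : Nat.nth Nat.Prime j ≤ n ↔ j < Nat.primeCounting n := by
  rw [pi_eq, Nat.lt_nth_iff_count_lt Nat.infinite_setOfPred_prime, Nat.lt_succ_iff]

/-- the elementary step -/
private theorem step {l : ℝ} (hl : 0 < l) {n M : ℕ} (hn2 : 2 ≤ n)
    (hM : M = ⌊(n : ℝ) + (2 * l + 2) * Real.log n⌋₊)
    (hone : Nat.primeCounting M - Nat.primeCounting n = 1)
    (h1 : (2 * l + 2) * Real.log n ≤ n) (h2 : l * Real.log 2 ≤ Real.log n) :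
    ∃ k : ℕ, l * Real.log (Nat.nth Nat.Prime k) ≤
        (Nat.nth Nat.Prime (k + 1) : ℝ) - Nat.nth Nat.Prime k ∧
      Nat.nth Nat.Prime k ≤ M ∧
      ((n < Nat.nth Nat.Prime (k + 1) ∧
          (Nat.nth Nat.Prime (k + 1) : ℝ) ≤ n + (2 * l + 2) * Real.log n ∧ k + 1 < Nat.primeCounting M) ∨
        (n < Nat.nth Nat.Prime k ∧
          (Nat.nth Nat.Prime k : ℝ) ≤ n + (2 * l + 2) * Real.log n ∧ k < Nat.primeCounting M)) := by
  set j := Nat.primeCounting n with hj
  have hlog0 : 0 ≤ Real.log n := Real.log_natCast_nonneg n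
  have hj1 : 1 ≤ j := by
    have : 0 < Nat.primeCounting n := by
      rw [← nth_le_iff, Nat.nth_prime_zero_eq_two]
      exact hn2
    exact this
  have hjM : Nat.primeCounting M = j + 1 := by omega
  have hA : n < Nat.nth Nat.Prime j := by
    by_contra h
    exact absurd ((nth_le_iff n j).1 (not_lt.1 h)) (lt_irrefl _)
  have hB : Nat.nth Nat.Prime j ≤ M := (nth_le_iff M j).2 (by omega)
  have hC : M < Nat.nth Nat.Prime (j + 1) := by
    by_contra h
    have := (nth_le_iff M (j + 1)).1 (not_lt.1 h)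
    omega
  have hD : Nat.nth Nat.Prime (j - 1) ≤ n := (nth_le_iff n (j - 1)).2 (by omega)
  have hnn : (0 : ℝ) ≤ (n : ℝ) + (2 * l + 2) * Real.log n := by positivity
  have hBr : (Nat.nth Nat.Prime j : ℝ) ≤ n + (2 * l + 2) * Real.log n := by
    have hBM : (Nat.nth Nat.Prime j : ℝ) ≤ (M : ℝ) := by exact_mod_cast hB
    refine hBM.trans ?_
    rw [hM]
    exact Nat.floor_le hnn
  have hCr : (n : ℝ) + (2 * l + 2) * Real.log n < Nat.nth Nat.Prime (j + 1) := by
    rw [hM] at hC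
    exact (Nat.floor_lt hnn).1 hC
  have hAr : (n : ℝ) < Nat.nth Nat.Prime j := by exact_mod_cast hA
  have hn0 : (0 : ℝ) < n := by positivity
  by_cases hcase : (n : ℝ) + (l + 1) * Real.log n ≤ Nat.nth Nat.Prime j
  · refine ⟨j - 1, ?_, ?_, Or.inl ⟨?_, ?_, ?_⟩⟩
    · rw [Nat.sub_add_cancel hj1]
      have hDr : (Nat.nth Nat.Prime (j - 1) : ℝ) ≤ n := by exact_mod_cast hD
      have hpos : (0 : ℝ) < Nat.nth Nat.Prime (j - 1) := by
        exact_mod_cast (Nat.prime_nth_prime (j - 1)).pos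
      have h3 : Real.log (Nat.nth Nat.Prime (j - 1)) ≤ Real.log n := Real.log_le_log hpos hDr
      have h4 : l * Real.log (Nat.nth Nat.Prime (j - 1)) ≤ l * Real.log n :=
        mul_le_mul_of_nonneg_left h3 hl.le
      nlinarith
    · refine hD.trans ?_
      rw [hM]
      refine Nat.le_floor ?_
      have : 0 ≤ (2 * l + 2) * Real.log n := by positivity
      linarith
    · rw [Nat.sub_add_cancel hj1]
      exact hA
    · rw [Nat.sub_add_cancel hj1]
      exact hBr
    · omega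
  · push Not at hcase
    refine ⟨j, ?_, hB, Or.inr ⟨hA, hBr, by omega⟩⟩
    have h3 : (Nat.nth Nat.Prime j : ℝ) ≤ 2 * n := by linarith
    have h4 : Real.log (Nat.nth Nat.Prime j) ≤ Real.log 2 + Real.log n := by
      rw [← Real.log_mul (by norm_num) (by positivity)]
      refine Real.log_le_log ?_ h3
      exact_mod_cast (Nat.prime_nth_prime j).pos
    have h5 : l * Real.log (Nat.nth Nat.Prime j) ≤ l * (Real.log 2 + Real.log n) :=
      mul_le_mul_of_nonneg_left h4 hl.le
    nlinarith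

private theorem card_window (P : ℕ) (B : ℝ) (hB : 0 ≤ B) (s : Finset ℕ)
    (hs : ∀ n ∈ s, n < P ∧ (P : ℝ) ≤ n + B) : (s.card : ℝ) ≤ B := by
  have hsub : s ⊆ Ico (P - ⌊B⌋₊) P := by
    intro n hn
    obtain ⟨h1, h2⟩ := hs n hn
    rw [mem_Ico]
    refine ⟨?_, h1⟩
    have : ((P - n : ℕ) : ℝ) ≤ B := by
      rw [Nat.cast_sub h1.le]
      linarith
    have := Nat.le_floor this
    omega
  have h1 : s.card ≤ ⌊B⌋₊ := by
    refine (card_le_card hsub).trans ?_
    rw [Nat.card_Ico]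
    omega
  calc (s.card : ℝ) ≤ (⌊B⌋₊ : ℝ) := by exact_mod_cast h1
    _ ≤ B := Nat.floor_le hB

theorem gaps_of_windows
    (H : ∀ l : ℝ, 0 < l → ∃ c : ℝ, 0 < c ∧ ∃ x₀ : ℕ, ∀ x : ℕ, x₀ ≤ x →
      c * x ≤ (((Icc 1 x).filter fun n : ℕ => Nat.primeCounting ⌊(n : ℝ) + l * Real.log n⌋₊ -
        Nat.primeCounting n = 1).card : ℝ)) (l : ℝ) (hl : 0 < l) :
    ∃ c : ℝ, 0 < c ∧ ∃ N₀ : ℕ, ∀ N : ℕ, N₀ ≤ N →
      c * N ≤ (((range N).filter fun k => l * Real.log (Nat.nth Nat.Prime k) ≤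
        (Nat.nth Nat.Prime (k + 1) : ℝ) - Nat.nth Nat.Prime k).card : ℝ) := by
  classical
  set l' : ℝ := 2 * l + 2 with hl'
  have hl'0 : 0 < l' := by positivity
  obtain ⟨c, hc, x₀, h⟩ := H l' hl'0
  -- eventually in `n`
  have ev1 : ∀ᶠ n : ℕ in atTop, l' * Real.log n ≤ n := by
    have := (Real.isLittleO_log_id_atTop.bound (show (0 : ℝ) < 1 / l' by positivity))
    have h2 := tendsto_natCast_atTop_atTop (R := ℝ) |>.eventually this
    filter_upwards [h2] with n hn
    have h3 : ‖Real.log (n : ℝ)‖ ≤ 1 / l' * ‖(n : ℝ)‖ := by simpa using hn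
    rw [Real.norm_of_nonneg (Real.log_natCast_nonneg n), Real.norm_of_nonneg (by positivity)] at h3
    calc l' * Real.log n ≤ l' * (1 / l' * n) := mul_le_mul_of_nonneg_left h3 hl'0.le
      _ = n := by field_simp
  have evlog : Tendsto (fun n : ℕ => Real.log n) atTop atTop :=
    Real.tendsto_log_atTop.comp tendsto_natCast_atTop_atTop
  have ev2 : ∀ᶠ n : ℕ in atTop, l * Real.log 2 ≤ Real.log n := evlog.eventually_ge_atTop _
  obtain ⟨n1, hn1⟩ := eventually_atTop.1 (ev1.and (ev2.and (eventually_ge_atTop 2)))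
  -- Chebyshev
  have hch := Chebyshev.eventually_primeCounting_le (ε := 1) one_pos
  obtain ⟨X1, hX1⟩ := eventually_atTop.1 hch
  -- eventually in `x`
  have ev3 : ∀ᶠ x : ℕ in atTop, 2 * (l' * Real.log x) + 2 ≤ x := by
    have hb : (0 : ℝ) < 1 / (4 * l') := by positivity
    have := (Real.isLittleO_log_id_atTop.bound hb)
    have h2 := tendsto_natCast_atTop_atTop (R := ℝ) |>.eventually this
    filter_upwards [h2, eventually_ge_atTop 4] with n hn hn4
    have h3 : ‖Real.log (n : ℝ)‖ ≤ 1 / (4 * l') * ‖(n : ℝ)‖ := by simpa using hn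
    rw [Real.norm_of_nonneg (Real.log_natCast_nonneg n), Real.norm_of_nonneg (by positivity)] at h3
    have h4 : l' * Real.log n ≤ n / 4 := by
      calc l' * Real.log n ≤ l' * (1 / (4 * l') * n) := mul_le_mul_of_nonneg_left h3 hl'0.le
        _ = n / 4 := by field_simp
    have h5 : (4 : ℝ) ≤ n := by exact_mod_cast hn4
    linarith
  obtain ⟨x1, hx1⟩ := eventually_atTop.1 (ev3.and (evlog.eventually_ge_atTop 1))
  set x2 : ℕ := max (max x1 (2 * x₀ + 4)) (max (2 * ⌈(4 * (n1 : ℝ)) / c⌉₊ + 4) ⌈X1⌉₊) with hx2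
  refine ⟨c / (64 * l'), by positivity, x2, fun N hN => ?_⟩
  set x : ℕ := Nat.nth Nat.Prime N with hx
  have hNx : N + 2 ≤ x := Nat.add_two_le_nth_prime N
  have hx2x : x2 ≤ x := by omega
  have hxx1 : x1 ≤ x := ((le_max_left _ _).trans (le_max_left _ _)).trans hx2x
  have hxx0 : 2 * x₀ + 4 ≤ x := ((le_max_right _ _).trans (le_max_left _ _)).trans hx2x
  have hxn1 : 2 * ⌈(4 * (n1 : ℝ)) / c⌉₊ + 4 ≤ x :=
    ((le_max_left _ _).trans (le_max_right _ _)).trans hx2x
  have hxX1 : ⌈X1⌉₊ ≤ x := ((le_max_right _ _).trans (le_max_right _ _)).trans hx2x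
  obtain ⟨hlx, hlx1⟩ := hx1 x hxx1
  set y : ℕ := x / 2 with hy
  have hyx : 2 * y ≤ x := Nat.mul_div_le x 2
  have hyx' : x ≤ 2 * y + 1 := by omega
  have hy0 : x₀ ≤ y := by omega
  have hyr : (x : ℝ) ≤ 2 * y + 1 := by exact_mod_cast hyx'
  have hy2 : (2 : ℝ) * y ≤ x := by exact_mod_cast hyx
  -- the set of good `n`
  set S : Finset ℕ := ((Icc 1 y).filter fun n : ℕ => Nat.primeCounting ⌊(n : ℝ) + l' * Real.log n⌋₊ -
        Nat.primeCounting n = 1) with hS
  have hScard : c * y ≤ (S.card : ℝ) := h y hy0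
  set S' : Finset ℕ := S.filter fun n => n1 ≤ n with hS'
  have hSS' : (S.card : ℝ) ≤ S'.card + n1 := by
    have h1 : S ⊆ S' ∪ range n1 := by
      intro n hn
      rcases lt_or_ge n n1 with h | h
      · exact mem_union_right _ (mem_range.2 h)
      · exact mem_union_left _ (mem_filter.2 ⟨hn, h⟩)
    have h2 := (card_le_card h1).trans (card_union_le _ _)
    rw [card_range] at h2
    exact_mod_cast h2
  set G : Finset ℕ := (range N).filter fun k => l * Real.log (Nat.nth Nat.Prime k) ≤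
        (Nat.nth Nat.Prime (k + 1) : ℝ) - Nat.nth Nat.Prime k with hG
  set B : ℝ := l' * Real.log x with hB
  have hB0 : 0 ≤ B := mul_nonneg hl'0.le (by linarith)
  -- the map
  have hmap : ∀ n ∈ S', ∃ k : ℕ, k ∈ G ∧
      ((n < Nat.nth Nat.Prime (k + 1) ∧ (Nat.nth Nat.Prime (k + 1) : ℝ) ≤ n + B) ∨
        (n < Nat.nth Nat.Prime k ∧ (Nat.nth Nat.Prime k : ℝ) ≤ n + B)) := by
    intro n hn
    obtain ⟨hnS, hnn1⟩ := mem_filter.1 hn
    obtain ⟨hnI, hone⟩ := mem_filter.1 hnS
    obtain ⟨hn1', hny⟩ := mem_Icc.1 hnI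
    obtain ⟨g1, g2, g3⟩ := hn1 n hnn1
    obtain ⟨k, k1, k2, k3⟩ := step hl (n := n) g3 rfl hone g1 g2
    have hlogle : Real.log n ≤ Real.log x := by
      refine Real.log_le_log (by positivity) ?_
      exact_mod_cast (by omega : n ≤ x)
    have hle : (n : ℝ) + (2 * l + 2) * Real.log n ≤ n + B := by
      have := mul_le_mul_of_nonneg_left hlogle hl'0.le
      rw [hB]
      linarith
    have hMx : ⌊(n : ℝ) + (2 * l + 2) * Real.log n⌋₊ < x := by
      rw [Nat.floor_lt (by positivity)]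
      have h1 : (n : ℝ) ≤ y := by exact_mod_cast hny
      have h2 : (0 : ℝ) < x := by
        have : 0 < x := by omega
        exact_mod_cast this
      nlinarith
    have hcount : Nat.primeCounting ⌊(n : ℝ) + (2 * l + 2) * Real.log n⌋₊ ≤ N := by
      by_contra hcon
      push Not at hcon
      have := (nth_le_iff ⌊(n : ℝ) + (2 * l + 2) * Real.log n⌋₊ N).2 hcon
      omega
    rcases k3 with ⟨a1, a2, a3⟩ | ⟨a1, a2, a3⟩
    · refine ⟨k, mem_filter.2 ⟨mem_range.2 (by omega), k1⟩, Or.inl ⟨a1, a2.trans hle⟩⟩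
    · refine ⟨k, mem_filter.2 ⟨mem_range.2 (by omega), k1⟩, Or.inr ⟨a1, a2.trans hle⟩⟩
  choose! f hfG hf using hmap
  have hfib : ∀ k ∈ G, ((S'.filter fun n => f n = k).card : ℝ) ≤ 2 * B := by
    intro k _
    have hsub : (S'.filter fun n => f n = k) ⊆
        ((S'.filter fun n => f n = k).filter fun n => n < Nat.nth Nat.Prime (k + 1) ∧
          (Nat.nth Nat.Prime (k + 1) : ℝ) ≤ n + B) ∪
        ((S'.filter fun n => f n = k).filter fun n => n < Nat.nth Nat.Prime k ∧
          (Nat.nth Nat.Prime k : ℝ) ≤ n + B) := by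
      intro n hn
      obtain ⟨h1, h2⟩ := mem_filter.1 hn
      have h3 := hf n h1
      rw [h2] at h3
      rcases h3 with h3 | h3
      · exact mem_union_left _ (mem_filter.2 ⟨hn, h3⟩)
      · exact mem_union_right _ (mem_filter.2 ⟨hn, h3⟩)
    have h1 := (card_le_card hsub).trans (card_union_le _ _)
    have h2 := card_window (Nat.nth Nat.Prime (k + 1)) B hB0
      ((S'.filter fun n => f n = k).filter fun n => n < Nat.nth Nat.Prime (k + 1) ∧
          (Nat.nth Nat.Prime (k + 1) : ℝ) ≤ n + B) (fun n hn => (mem_filter.1 hn).2)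
    have h3 := card_window (Nat.nth Nat.Prime k) B hB0
      ((S'.filter fun n => f n = k).filter fun n => n < Nat.nth Nat.Prime k ∧
          (Nat.nth Nat.Prime k : ℝ) ≤ n + B) (fun n hn => (mem_filter.1 hn).2)
    have h4 : ((S'.filter fun n => f n = k).card : ℝ) ≤
        (((S'.filter fun n => f n = k).filter fun n => n < Nat.nth Nat.Prime (k + 1) ∧
          (Nat.nth Nat.Prime (k + 1) : ℝ) ≤ n + B).card : ℝ) +
        (((S'.filter fun n => f n = k).filter fun n => n < Nat.nth Nat.Prime k ∧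
          (Nat.nth Nat.Prime k : ℝ) ≤ n + B).card : ℝ) := by exact_mod_cast h1
    linarith
  have hcard : (S'.card : ℝ) ≤ 2 * B * G.card := by
    have h1 := card_eq_sum_card_fiberwise (s := S') (t := G) (f := f) (fun n hn => hfG n hn)
    rw [h1]
    push_cast
    calc ∑ k ∈ G, ((S'.filter fun n => f n = k).card : ℝ) ≤ ∑ k ∈ G, 2 * B :=
          sum_le_sum hfib
      _ = 2 * B * G.card := by rw [sum_const, nsmul_eq_mul]; ring
  -- sizes
  have hn1y : (n1 : ℝ) ≤ c * y / 4 := by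
    have h1 : (4 * (n1 : ℝ)) / c ≤ ⌈(4 * (n1 : ℝ)) / c⌉₊ := Nat.le_ceil _
    have h2 : ⌈(4 * (n1 : ℝ)) / c⌉₊ ≤ y := by omega
    have h3 : (4 * (n1 : ℝ)) / c ≤ y := h1.trans (by exact_mod_cast h2)
    rw [div_le_iff₀ hc] at h3
    linarith
  have hNle : (N : ℝ) ≤ 3 * x / Real.log x := by
    have h1 : X1 ≤ (x : ℝ) := (Nat.le_ceil X1).trans (by exact_mod_cast hxX1)
    have h2 := hX1 x h1
    rw [Nat.floor_natCast] at h2
    have h3 : N ≤ Nat.primeCounting x := by
      have : N < Nat.primeCounting x := (nth_le_iff x N).1 le_rfl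
      exact this.le
    have h4 : (N : ℝ) ≤ Nat.primeCounting x := by exact_mod_cast h3
    have h5 : Real.log 4 ≤ 2 := by
      have : Real.log 4 = 2 * Real.log 2 := by
        rw [show (4 : ℝ) = 2 ^ 2 by norm_num, Real.log_pow]
        norm_num
      rw [this]
      have := Real.log_two_lt_d9
      linarith
    have h6 : (Real.log 4 + 1) * (x : ℝ) / Real.log x ≤ 3 * x / Real.log x := by
      have : (0 : ℝ) < Real.log x := by linarith
      gcongr
      linarith
    linarith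
  have hlogpos : (0 : ℝ) < Real.log x := by linarith
  have hx4 : (4 : ℝ) ≤ x := by
    have : 4 ≤ x := by omega
    exact_mod_cast this
  have hyx4 : (x : ℝ) / 4 ≤ y := by linarith
  have hmain : 3 / 4 * c * y ≤ 2 * B * G.card := by linarith
  have h7 : 3 / 16 * c * x ≤ 2 * B * G.card := by
    have : c * (x / 4) ≤ c * y := mul_le_mul_of_nonneg_left hyx4 hc.le
    linarith
  have h8 : c / (64 * l') * N ≤ c / (64 * l') * (3 * x / Real.log x) :=
    mul_le_mul_of_nonneg_left hNle (by positivity)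
  refine h8.trans ?_
  rw [hB] at h7
  have h9 : c / (64 * l') * (3 * x / Real.log x) = (3 / 64 * c * x) / (l' * Real.log x) := by
    field_simp
  rw [h9, div_le_iff₀ (by positivity)]
  have h10 : 0 ≤ (G.card : ℝ) := Nat.cast_nonneg _
  have h11 : 0 ≤ c * (x : ℝ) := by positivity
  nlinarith

end Pool.Agent.LibGap5
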